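import Pool.Agent.Helper27.KS.GoalsF

/-!
# Kahn-Saks conjecture, packet KS-STB: the deviation stays large after one comparison
-/

namespace Pool.Agent.Helper70.KS

open MeasureTheory Filter Topology Finset
open Pool.Agent.Helper44.KS Pool.Agent.Helper75.KS Pool.Agent.Helper27.KS
open Pool.Agent.Helper89.GP (LX po Ex Pr hh bq Gd gp df Ex_sub Ex_add Ex_mono Ex_const
  exists_of_Pr_pos)

noncomputable section

variable {n : ℕ} {R : Fin n → Fin n → Prop}

lemma gp_eq (x z : Fin n) : gp R x z = hh R z - hh R x := by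
  unfold gp hh df
  rw [Ex_sub]

lemma ex_dev (x z : Fin n) :
    (Ex R fun σ => |df σ x z - gp R x z|) ≤ dev R x + dev R z := by
  unfold dev
  rw [← Ex_add]
  apply Ex_mono
  intro σ _
  rw [gp_eq]
  have h : df σ x z - (hh R z - hh R x) =
      ((po σ z : ℝ) - hh R z) - ((po σ x : ℝ) - hh R x) := by
    unfold df
    ring
  rw [h]
  exact (abs_sub _ _).trans (by linarith)

lemma ex_abs (hne : (LX R).Nonempty) (x z : Fin n) :
    (Ex R fun σ => |df σ x z|) ≤ |gp R x z| + (dev R x + dev R z) := by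
  have h1 : (Ex R fun σ => |df σ x z|) ≤ Ex R fun σ => |gp R x z| + |df σ x z - gp R x z| := by
    apply Ex_mono
    intro σ _
    have h : df σ x z = gp R x z + (df σ x z - gp R x z) := by ring
    calc |df σ x z| = |gp R x z + (df σ x z - gp R x z)| := by rw [← h]
      _ ≤ _ := abs_add_le _ _
  rw [Ex_add, Ex_const hne] at h1
  have := ex_dev (R := R) x z
  linarith

/-- domination of the laws -/
lemma nu_le (R R' : Fin n → Fin n → Prop) (x z : Fin n) (K : ℝ) (hK : 0 ≤ K)
    (hm : Measurable (Gd R x z)) (h0 : ∀ t, 0 ≤ Gd R x z t)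
    (h : ∀ t, Gd R' x z t ≤ K * Gd R x z t) (hfin : IsProbabilityMeasure (nu R x z))
    (s : Set ℝ) (hs : MeasurableSet s) :
    (nu R' x z).real s ≤ K * (nu R x z).real s := by
  have h1 : nu R' x z s ≤ ENNReal.ofReal K * nu R x z s := by
    unfold nu
    rw [withDensity_apply _ hs, withDensity_apply _ hs, ← lintegral_const_mul _ hm.ennreal_ofReal]
    apply lintegral_mono
    intro t
    show ENNReal.ofReal (Gd R' x z t) ≤ ENNReal.ofReal K * ENNReal.ofReal (Gd R x z t)
    rw [← ENNReal.ofReal_mul hK]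
    exact ENNReal.ofReal_le_ofReal (h t)
  have h2 : ENNReal.ofReal K * nu R x z s ≠ ⊤ :=
    ENNReal.mul_ne_top ENNReal.ofReal_ne_top (measure_ne_top _ _)
  have h3 := ENNReal.toReal_mono h2 h1
  rw [ENNReal.toReal_mul, ENNReal.toReal_ofReal hK] at h3
  exact h3

theorem stb (hM : MvzStmt) (hG : GinStmt) (hN : NoiStmt) (hL : LcnStmt) (hC : CmpStmt)
    (hB : LsbStmt) : StbStmt := by
  obtain ⟨C1, θ, S1, hC1, hθ, hS1, H⟩ := hM
  refine ⟨θ / 1600, max S1 (1600000 * (C1 + 2) / θ ^ 2), by positivity,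
    hS1.trans (le_max_left _ _), ?_⟩
  intro n R u v x hne huv hPr hmx hS
  have hSa : S1 ≤ dev R x := (le_max_left _ _).trans hS
  have hSb : 1600000 * (C1 + 2) / θ ^ 2 ≤ dev R x := (le_max_right _ _).trans hS
  obtain ⟨z, hzx, hz1, hz2⟩ := H n R x hne hmx hSa
  set S : ℝ := dev R x with hSdef
  have S1' : 1 ≤ S := hS1.trans hSa
  have S0 : 0 < S := by linarith
  have hdz : dev R z ≤ S := hmx z
  have hθ2 : 0 < θ ^ 2 := by positivity
  -- the square root bound
  have hsq : 5 / 2 * ((C1 + 2) * S) ≤ (θ * S / 800) ^ 2 := by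
    rw [div_le_iff₀ hθ2] at hSb
    have h1 : 1600000 * (C1 + 2) * S ≤ S * θ ^ 2 * S := mul_le_mul_of_nonneg_right hSb S0.le
    nlinarith
  have hroot : √(5 / 2 * ((C1 + 2) * S)) ≤ θ * S / 800 := by
    apply Real.sqrt_le_iff.mpr
    exact ⟨by positivity, hsq⟩
  have hroot1 : √((C1 + 2) * S) ≤ θ * S / 800 := by
    refine le_trans (Real.sqrt_le_sqrt ?_) hroot
    have : 0 ≤ (C1 + 2) * S := by positivity
    linarith
  -- the law before the comparison
  obtain ⟨hm, h0, hprob, -, -⟩ := hG n R x z hne hzx.symm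
  obtain ⟨hint, hmea, hnoi⟩ := hN n R x z hne hzx.symm
  have hD : (Ex R fun σ => |df σ x z|) ≤ (C1 + 2) * S := by
    have := ex_abs hne x z
    have h2 : dev R x = S := rfl
    nlinarith
  have hb1 := hnoi (gp R x z)
  have hMlow : θ * S / 2 ≤ mdv (nu R x z) := by
    unfold mdv
    rw [hmea]
    have h1 := (abs_le.mp hb1).1
    have h2 : √(Ex R fun σ => |df σ x z|) ≤ θ * S / 800 :=
      (Real.sqrt_le_sqrt hD).trans hroot1
    have h3 : 0 < θ * S := by positivity
    linarith
  -- after the comparison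
  have hP0 : 0 < Pr R fun σ => po σ u < po σ v := lt_of_lt_of_le (by norm_num) hPr
  have hne' : (LX (ad R u v)).Nonempty := by
    obtain ⟨σ, hσ, hlt⟩ := exists_of_Pr_pos hP0
    refine ⟨σ, ?_⟩
    rw [Pool.Agent.Helper89.GP.mem_LX] at hσ ⊢
    intro a b hab
    rcases hab with h | ⟨rfl, rfl⟩
    · exact hσ a b h
    · exact hlt
  obtain ⟨hc1, hc2, -⟩ := hC n R u v hne'
  obtain ⟨hm', h0', hprob', -, -⟩ := hG n (ad R u v) x z hne' hzx.symm
  obtain ⟨hint', hmea', hnoi'⟩ := hN n (ad R u v) x z hne' hzx.symm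
  have hdom : ∀ t, Gd (ad R u v) x z t ≤ 5 / 2 * Gd R x z t := by
    intro t
    have h1 := hc2 x z t
    have h2 : 2 / 5 * Gd (ad R u v) x z t ≤ (Pr R fun σ => po σ u < po σ v) *
      Gd (ad R u v) x z t := mul_le_mul_of_nonneg_right hPr (h0' t)
    linarith
  set h : ℝ := θ * S / 100 with hh'
  have hpos : 0 < h := by positivity
  set b' : ℝ := gp (ad R u v) x z with hb'
  have hIcc : (nu (ad R u v) x z).real (Set.Icc (b' - h / 2) (b' - h / 2 + h)) ≤ 1 / 2 := by
    have h1 := nu_le R (ad R u v) x z (5 / 2) (by norm_num) hm h0 hdom hprob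
      (Set.Icc (b' - h / 2) (b' - h / 2 + h)) measurableSet_Icc
    have h2 := hB (nu R x z) (hL n R x z hne hzx.symm) hint (b' - h / 2) h hpos.le
    have h3 : (nu R x z).real (Set.Icc (b' - h / 2) (b' - h / 2 + h)) * (θ * S / 2) ≤ 10 * h :=
      le_trans (mul_le_mul_of_nonneg_left hMlow measureReal_nonneg) h2
    have h4 : 0 < θ * S / 2 := by positivity
    have h5 : (nu R x z).real (Set.Icc (b' - h / 2) (b' - h / 2 + h)) ≤ 10 * h / (θ * S / 2) := by
      rw [le_div_iff₀ h4]
      exact h3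
    have h6 : 10 * h / (θ * S / 2) = 1 / 5 := by
      rw [hh']
      field_simp
      norm_num
    rw [h6] at h5
    linarith
  have hlow : θ * S / 400 ≤ ∫ t, |t - b'| ∂(nu (ad R u v) x z) := by
    have hi : Integrable (fun t : ℝ => |t - b'|) (nu (ad R u v) x z) :=
      (hint'.sub (integrable_const b')).abs
    have h1 := mul_meas_ge_le_integral_of_nonneg
      (Filter.Eventually.of_forall fun t : ℝ => abs_nonneg (t - b')) hi (h / 2)
    have h2 : 1 - 1 / 2 ≤ (nu (ad R u v) x z).real {t | h / 2 ≤ |t - b'|} := by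
      have h3 : (nu (ad R u v) x z).real (Set.Icc (b' - h / 2) (b' - h / 2 + h))ᶜ ≤
          (nu (ad R u v) x z).real {t | h / 2 ≤ |t - b'|} := by
        refine measureReal_mono ?_ (measure_ne_top _ _)
        intro t ht
        simp only [Set.mem_compl_iff, Set.mem_Icc, not_and_or, not_le] at ht
        show h / 2 ≤ |t - b'|
        rcases ht with ht | ht
        · rw [abs_of_neg (by linarith)]
          linarith
        · rw [abs_of_pos (by linarith)]
          linarith
      rw [probReal_compl_eq_one_sub measurableSet_Icc] at h3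
      linarith
    have h4 : h / 2 * (1 - 1 / 2) ≤ h / 2 * (nu (ad R u v) x z).real {t | h / 2 ≤ |t - b'|} :=
      mul_le_mul_of_nonneg_left h2 (by positivity)
    have h5 : h / 2 * (nu (ad R u v) x z).real {t | h / 2 ≤ |t - b'|} ≤
      ∫ t, |t - b'| ∂(nu (ad R u v) x z) := h1
    have h6 : h / 2 * (1 - 1 / 2) = θ * S / 400 := by
      rw [hh']
      ring
    linarith
  have hD' : (Ex (ad R u v) fun σ => |df σ x z|) ≤ 5 / 2 * ((C1 + 2) * S) := by
    have h1 := hc1 (fun σ => |df σ x z|) (fun σ => abs_nonneg _)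
    have hnn : 0 ≤ Ex (ad R u v) fun σ => |df σ x z| := by
      unfold Ex
      positivity
    have h2 : 2 / 5 * (Ex (ad R u v) fun σ => |df σ x z|) ≤
      (Pr R fun σ => po σ u < po σ v) * Ex (ad R u v) fun σ => |df σ x z| :=
      mul_le_mul_of_nonneg_right hPr hnn
    linarith
  have hb2 := (abs_le.mp (hnoi' b')).2
  have hr2 : √(Ex (ad R u v) fun σ => |df σ x z|) ≤ θ * S / 800 :=
    (Real.sqrt_le_sqrt hD').trans hroot
  have hfin : θ * S / 800 ≤ Ex (ad R u v) fun σ => |df σ x z - b'| := by linarith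
  have hdev := ex_dev (R := ad R u v) x z
  have hsum : θ * S / 800 ≤ dev (ad R u v) x + dev (ad R u v) z := hfin.trans hdev
  by_cases hcase : θ / 1600 * S ≤ dev (ad R u v) x
  · exact ⟨x, hcase⟩
  · refine ⟨z, ?_⟩
    push Not at hcase
    linarith

end

end Pool.Agent.Helper70.KS
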