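import Pool.Agent.Helper44.KS.GoalsE

/-!
# Kahn-Saks conjecture, packet KS-FIN: the main abstract theorem
-/

namespace Pool.Agent.Helper70.KS

open MeasureTheory Filter Topology Set
open Pool.Agent.Helper44.KS

noncomputable section

lemma dist_symm {c : ℝ} (Z : KSys c) (p q : Fin Z.n) : Z.dist p q = Z.dist q p := by
  unfold KSys.dist
  congr 1
  ext d
  rw [abs_sub_comm]

lemma meas_lt {n : ℕ} (q : Fin n) (s : ℝ) : MeasurableSet {d : Fin n → ℝ | d q + s < 0} :=
  measurableSet_lt (Measurable.add_const (f := fun d : Fin n → ℝ => d q) (measurable_pi_apply q) s)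
    measurable_const

/-- Markov for the real measure. -/
lemma markov {α : Type*} [MeasurableSpace α] (μ : Measure α) [IsProbabilityMeasure μ] (f : α → ℝ)
    (hf : Integrable f μ) (h0 : ∀ x, 0 ≤ f x) (ε B : ℝ) (hε : 0 < ε) (hB : ∫ x, f x ∂μ ≤ B) :
    μ.real {x | ε ≤ f x} ≤ B / ε := by
  have h := mul_meas_ge_le_integral_of_nonneg (Filter.Eventually.of_forall h0) hf ε
  rw [le_div_iff₀ hε, mul_comm]
  exact h.trans hB

/-- displacement is integrable -/
lemma int_Y {c : ℝ} (Z : KSys c) (p : Fin Z.n) : Integrable (fun d => Z.Y d p) Z.μ := by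
  unfold KSys.Y
  exact (Z.int p).sub (integrable_const _)

lemma int_bound {c : ℝ} (Z : KSys c) (q : Fin Z.n) (C1 : ℝ) (h : |Z.a q| ≤ C1) :
    ∫ d, |Z.Y d q| ∂Z.μ ≤ 4 + √C1 := by
  have h1 := Z.m2 q
  have h2 : √|∫ e, e q ∂Z.μ| ≤ √C1 := Real.sqrt_le_sqrt h
  have h3 : ∫ d, |Z.Y d q| ∂Z.μ = ∫ d, |d q - ∫ e, e q ∂Z.μ| ∂Z.μ := rfl
  rw [h3]
  linarith

/-- the upper tail of `Y` -/
lemma tail {c : ℝ} (Z : KSys c) (q : Fin Z.n) (C1 L : ℝ) (h : |Z.a q| ≤ C1) (hL : C1 < L) :
    Z.μ.real {d | L - C1 ≤ |Z.Y d q|} ≤ (4 + √C1) / (L - C1) :=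
  markov Z.μ (fun d => |Z.Y d q|) (int_Y Z q).abs (fun _ => abs_nonneg _) (L - C1) _
    (by linarith) (int_bound Z q C1 h)

/-- the law of `d q` at the right end -/
lemma phi_right {c : ℝ} (Z : KSys c) (q : Fin Z.n) (C1 L : ℝ) (h : |Z.a q| ≤ C1) (hL : C1 < L) :
    Z.μ.real {d | d q + L < 0} ≤ (4 + √C1) / (L - C1) := by
  refine le_trans (measureReal_mono ?_ (measure_ne_top _ _)) (tail Z q C1 L h hL)
  intro d hd
  simp only [mem_ofPred_eq] at hd ⊢
  have h1 : Z.Y d q ≤ -(L - C1) := by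
    unfold KSys.Y
    have := (abs_le.mp h).1
    linarith
  rw [abs_of_nonpos (by linarith)]
  linarith

lemma phi_left {c : ℝ} (Z : KSys c) (q : Fin Z.n) (C1 L : ℝ) (h : |Z.a q| ≤ C1) (hL : C1 < L) :
    1 - (4 + √C1) / (L - C1) ≤ Z.μ.real {d | d q + -L < 0} := by
  have h0 : Z.μ.real {d : Fin Z.n → ℝ | d q + -L < 0}ᶜ ≤ (4 + √C1) / (L - C1) := by
    refine le_trans (measureReal_mono ?_ (measure_ne_top _ _)) (tail Z q C1 L h hL)
    intro d hd
    simp only [mem_compl_iff, mem_ofPred_eq, not_lt] at hd ⊢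
    have h1 : L - C1 ≤ Z.Y d q := by
      unfold KSys.Y
      have := (abs_le.mp h).2
      linarith
    exact h1.trans (le_abs_self _)
  rw [probReal_compl_eq_one_sub (meas_lt q (-L))] at h0
  linarith

/-- small balls of `d q` -/
lemma ball {c : ℝ} (hA : S_ACK) (Z : KSys c) (q : Fin Z.n) (θ : ℝ) (hθ : 0 < θ)
    (h : θ ≤ Z.dist q Z.x) (s r : ℝ) (hr : 0 < r) :
    Z.μ.real {d | |d q + s| ≤ r} ≤ 10 * r / θ := by
  have h1 := hA c Z q Z.x (-s) r hr
  have h2 : Z.μ.real {d | |d q + s| ≤ r} = Z.μ.real {d | |d q - d Z.x - -s| ≤ r} := by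
    apply measureReal_congr
    filter_upwards [Z.ref] with d hd
    apply propext
    show |d q + s| ≤ r ↔ |d q - d Z.x - -s| ≤ r
    rw [hd]
    simp
  rw [h2, le_div_iff₀ hθ]
  refine le_trans ?_ h1
  exact mul_le_mul_of_nonneg_left h measureReal_nonneg

lemma phi_step {c : ℝ} (hA : S_ACK) (Z : KSys c) (q : Fin Z.n) (θ : ℝ) (hθ : 0 < θ)
    (h : θ ≤ Z.dist q Z.x) (s s' : ℝ) (hs : s < s') :
    Z.μ.real {d | d q + s < 0} ≤ Z.μ.real {d | d q + s' < 0} + 10 * (s' - s) / θ := by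
  have h1 := ball hA Z q θ hθ h s (s' - s) (by linarith)
  have h2 : Z.μ.real {d | d q + s < 0} ≤
      Z.μ.real ({d | d q + s' < 0} ∪ {d | |d q + s| ≤ s' - s}) := by
    refine measureReal_mono ?_ (measure_ne_top _ _)
    intro d hd
    simp only [mem_ofPred_eq, mem_union] at hd ⊢
    by_cases h3 : d q + s' < 0
    · exact Or.inl h3
    · right
      rw [abs_le]
      constructor <;> linarith
  have h3 := measureReal_union_le (μ := Z.μ) {d : Fin Z.n → ℝ | d q + s' < 0}
    {d | |d q + s| ≤ s' - s}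
  linarith

/-- comparison of the laws of `d p` and `d q + s` -/
lemma compare {c : ℝ} (hA : S_ACK) (Z : KSys c) (p q : Fin Z.n) (θ : ℝ) (hθ : 0 < θ)
    (h : θ ≤ Z.dist q Z.x) (s r η : ℝ) (hr : 0 < r) (h1 : Z.dist p q ≤ η)
    (h2 : |Z.a p - (Z.a q + s)| ≤ η) :
    |Z.μ.real {d | d p < d Z.x} - Z.μ.real {d | d q + s < 0}| ≤ 10 * r / θ + 2 * η / r := by
  have hb := ball hA Z q θ hθ h s r hr
  have hint : Integrable (fun d : Fin Z.n → ℝ => |d p - d q - s|) Z.μ :=
    (((Z.int p).sub (Z.int q)).sub (integrable_const s)).abs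
  have hle : ∫ d, |d p - d q - s| ∂Z.μ ≤ 2 * η := by
    have h3 : ∫ d, |d p - d q - s| ∂Z.μ ≤ ∫ d, (|Z.Y d p - Z.Y d q| + η) ∂Z.μ := by
      apply integral_mono hint
      · exact (((int_Y Z p).sub (int_Y Z q)).abs).add (integrable_const η)
      · intro d
        show |d p - d q - s| ≤ |Z.Y d p - Z.Y d q| + η
        have h4 : d p - d q - s = (Z.Y d p - Z.Y d q) + (Z.a p - (Z.a q + s)) := by
          unfold KSys.Y
          ring
        rw [h4]
        exact (abs_add_le _ _).trans (by linarith)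
    have h5 : ∫ d, (|Z.Y d p - Z.Y d q| + η) ∂Z.μ = Z.dist p q + η := by
      have h6 : Integrable (fun d => |Z.Y d p - Z.Y d q|) Z.μ := ((int_Y Z p).sub (int_Y Z q)).abs
      rw [integral_add h6 (integrable_const η)]
      simp [KSys.dist]
    linarith
  have hm := markov Z.μ (fun d => |d p - d q - s|) hint (fun _ => abs_nonneg _) r _ hr hle
  have hx : Z.μ.real {d | d p < d Z.x} = Z.μ.real {d | d p < 0} := by
    apply measureReal_congr
    filter_upwards [Z.ref] with d hd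
    apply propext
    show d p < d Z.x ↔ d p < 0
    rw [hd]
  rw [hx]
  have hu := measureReal_union_le (μ := Z.μ) {d : Fin Z.n → ℝ | |d q + s| ≤ r}
    {d | r ≤ |d p - d q - s|}
  rw [abs_le]
  constructor
  · have h6 : Z.μ.real {d | d q + s < 0} ≤ Z.μ.real ({d | d p < 0} ∪
        ({d : Fin Z.n → ℝ | |d q + s| ≤ r} ∪ {d | r ≤ |d p - d q - s|})) := by
      refine measureReal_mono ?_ (measure_ne_top _ _)
      intro d hd
      simp only [mem_ofPred_eq, mem_union] at hd ⊢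
      by_contra hc
      push Not at hc
      obtain ⟨c1, c2, c3⟩ := hc
      rw [abs_lt] at c3
      rcases lt_abs.mp c2 with c4 | c4 <;> linarith [c3.1, c3.2]
    have h7 := measureReal_union_le (μ := Z.μ) {d : Fin Z.n → ℝ | d p < 0}
      ({d : Fin Z.n → ℝ | |d q + s| ≤ r} ∪ {d | r ≤ |d p - d q - s|})
    linarith
  · have h6 : Z.μ.real {d | d p < 0} ≤ Z.μ.real ({d | d q + s < 0} ∪
        ({d : Fin Z.n → ℝ | |d q + s| ≤ r} ∪ {d | r ≤ |d p - d q - s|})) := by
      refine measureReal_mono ?_ (measure_ne_top _ _)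
      intro d hd
      simp only [mem_ofPred_eq, mem_union] at hd ⊢
      by_contra hc
      push Not at hc
      obtain ⟨c1, c2, c3⟩ := hc
      rw [abs_lt] at c3
      rcases lt_abs.mp c2 with c4 | c4 <;> linarith [c3.1, c3.2]
    have h7 := measureReal_union_le (μ := Z.μ) {d : Fin Z.n → ℝ | d q + s < 0}
      ({d : Fin Z.n → ℝ | |d q + s| ≤ r} ∪ {d | r ≤ |d p - d q - s|})
    linarith

theorem fin : S_FIN := by
  intro hSHF hA c hc Z hS hF
  obtain ⟨C1, θ, hC1, hθ, H⟩ := hSHF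
  set γ : ℝ := min c 1 with hγ
  have γ0 : 0 < γ := lt_min hc one_pos
  have γ1 : γ ≤ 1 := min_le_right _ _
  have γc : γ ≤ c := min_le_left _ _
  set E : ℝ := 4 + √C1 with hE
  have E0 : 0 < E := by positivity
  set L : ℝ := C1 + 8 * E / γ + 1 with hL
  have hq0 : 0 < 8 * E / γ := by positivity
  have L0 : 0 < L := by linarith
  have LC : C1 < L := by linarith
  have hE8 : E / (L - C1) ≤ γ / 8 := by
    rw [div_le_iff₀ (by linarith)]
    have h1 : γ / 8 * (8 * E / γ) = E := by field_simp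
    have h2 : γ / 8 * (8 * E / γ) ≤ γ / 8 * (L - C1) := by
      apply mul_le_mul_of_nonneg_left _ (by positivity)
      linarith
    linarith
  set r : ℝ := θ * γ / 80 with hr
  have r0 : 0 < r := by positivity
  set η : ℝ := min (r * γ / 16) (θ / 2) with hη
  have η0 : 0 < η := lt_min (by positivity) (by positivity)
  have ηr : η ≤ r * γ / 16 := min_le_left _ _
  have ηθ : η ≤ θ / 2 := min_le_right _ _
  obtain ⟨m, hm⟩ := exists_nat_gt (2 * L / (θ * γ / 40))
  have m0 : (0 : ℝ) < m := lt_trans (by positivity) hm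
  have hstep : 2 * L / m ≤ θ * γ / 40 := by
    rw [div_le_iff₀ m0]
    rw [div_lt_iff₀ (by positivity)] at hm
    linarith
  set g : ℕ → ℝ := fun i => -L + i * (2 * L / m) with hg
  set F : Finset ℝ := (Finset.range (m + 1)).image g with hFF
  have hFL : ∀ s ∈ F, |s| ≤ L := by
    intro s hs
    rw [hFF, Finset.mem_image] at hs
    obtain ⟨i, hi, rfl⟩ := hs
    rw [Finset.mem_range] at hi
    have h1 : (i : ℝ) ≤ m := by exact_mod_cast Nat.lt_succ_iff.mp hi
    have h2 : (i : ℝ) * (2 * L / m) ≤ 2 * L := by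
      calc (i : ℝ) * (2 * L / m) ≤ m * (2 * L / m) :=
            mul_le_mul_of_nonneg_right h1 (by positivity)
        _ = 2 * L := by field_simp
    have h3 : 0 ≤ (i : ℝ) * (2 * L / m) := by positivity
    rw [abs_le]
    constructor <;> simp only [hg] <;> linarith
  obtain ⟨N, q, ha, hd, hp⟩ := H c L η hc L0 η0 F hFL Z hS hF
  set φ : ℝ → ℝ := fun s => (Z N).μ.real {d | d q + s < 0} with hφ
  have hleft : 1 / 2 ≤ φ (g 0) := by
    have h1 := phi_left (Z N) q C1 L ha LC
    have h2 : g 0 = -L := by simp [hg]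
    rw [h2]
    show 1 / 2 ≤ (Z N).μ.real {d | d q + -L < 0}
    linarith
  have hright : φ (g m) < 1 / 2 := by
    have h1 := phi_right (Z N) q C1 L ha LC
    have h2 : g m = L := by
      simp only [hg]
      field_simp
      ring
    rw [h2]
    show (Z N).μ.real {d | d q + L < 0} < 1 / 2
    linarith
  have hex : ∃ i, φ (g i) < 1 / 2 := ⟨m, hright⟩
  classical
  set i0 := Nat.find hex with hi0
  have hi1 : φ (g i0) < 1 / 2 := Nat.find_spec hex
  have hi2 : i0 ≤ m := Nat.find_min' hex hright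
  have hi3 : i0 ≠ 0 := by
    intro h
    rw [h] at hi1
    linarith
  obtain ⟨j, hj⟩ := Nat.exists_eq_succ_of_ne_zero hi3
  have hj1 : 1 / 2 ≤ φ (g j) := by
    by_contra hcon
    push Not at hcon
    exact Nat.find_min hex (m := j) (by rw [← hi0, hj]; exact Nat.lt_succ_self j) hcon
  have hj2 : φ (g j) ≤ φ (g i0) + 10 * (g i0 - g j) / θ := by
    apply phi_step hA (Z N) q θ hθ hd
    rw [hj]
    simp only [hg]
    have : (0 : ℝ) < 2 * L / m := by positivity
    push_cast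
    nlinarith
  have hj3 : g i0 - g j = 2 * L / m := by
    rw [hj]
    simp only [hg]
    push_cast
    ring
  rw [hj3] at hj2
  have hj4 : 10 * (2 * L / m) / θ ≤ γ / 4 := by
    rw [div_le_iff₀ hθ]
    linarith
  have hjF : g j ∈ F := by
    rw [hFF, Finset.mem_image]
    refine ⟨j, ?_, rfl⟩
    rw [Finset.mem_range]
    have : j < i0 := by rw [hj]; exact Nat.lt_succ_self j
    omega
  obtain ⟨p, hp1, hp2⟩ := hp (g j) hjF
  have hpx : p ≠ (Z N).x := by
    intro h
    rw [h, dist_symm] at hp1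
    linarith
  have hcmp := compare hA (Z N) p q θ hθ hd (g j) r η r0 hp1 hp2
  have hr1 : 10 * r / θ = γ / 8 := by
    rw [hr]
    field_simp
    norm_num
  have hr2 : 2 * η / r ≤ γ / 8 := by
    rw [div_le_iff₀ r0]
    linarith
  have hnb := (Z N).nobal p (Z N).x hpx
  have hphi : |φ (g j) - 1 / 2| ≤ γ / 4 := by
    rw [abs_le]
    constructor <;> linarith
  have hfin : |(Z N).μ.real {d | d p < d (Z N).x} - 1 / 2| ≤ γ / 8 + γ / 8 + γ / 4 := by
    have h1 : (Z N).μ.real {d | d p < d (Z N).x} - 1 / 2 =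
      ((Z N).μ.real {d | d p < d (Z N).x} - φ (g j)) + (φ (g j) - 1 / 2) := by ring
    rw [h1]
    refine (abs_add_le _ _).trans ?_
    have h2 : |(Z N).μ.real {d | d p < d (Z N).x} - φ (g j)| ≤ 10 * r / θ + 2 * η / r := hcmp
    linarith
  linarith

end

end Pool.Agent.Helper70.KS
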